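import Pool.Agent.H804.OP.Main
import Pool.Agent.H804.OP.Low
import Pool.Agent.H804.OP.Ex

/-!
# Short periodic geodesics for `Spin(9)`-invariant metrics on the Cayley plane

`IsClifford A`: `A_0, …, A_8` is a Clifford system on `ℝ^16`; `z ↦ (⟨A_i z, z⟩)_i` is then the octonionic
Hopf map `S^15 → S^8`.  `IsProfileCP L f h`: `dr² + f(r)² g_V + h(r)² g_H`, `0 ≤ r ≤ L`, is a smooth metric
on the Cayley plane `𝕆P²`, where `g_V` and `g_H` are the restrictions of the round metric of `S^15` to the
tangent spaces of the fibres of the Hopf map and to their orthogonal complements; these are the metrics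
invariant under the isotropy group `Spin(9)` of a point.  `IsGeodesicOP A L f h v γ`: `γ` is a geodesic of
speed `v` of this metric.  For every such metric there is a periodic geodesic of unit speed with period `T`
such that `T^16 ≤ 2640 π^16 ∫_0^L f⁷ h⁸`; the right hand side is `π^16` for the symmetric metric
`f = sin cos`, `h = sin`, `L = π/2`, all of whose periodic geodesics have length `≥ π`: the constant is
optimal.
-/

open Real Set MeasureTheory

namespace Pool.Agent.Results.MP_3eff7f_gt.CayleyPlane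

open H738CP H804OP

theorem result :
    (∃ A : Fin 9 → E16 →L[ℝ] E16, IsClifford A) ∧
    (∀ A : Fin 9 → E16 →L[ℝ] E16, IsClifford A →
      (∀ z : E16, ‖z‖ = 1 → ∑ i, hopf9 A z i ^ 2 = 1) ∧
      (∀ (L : ℝ) (f h : ℝ → ℝ), IsProfileCP L f h →
        ∃ (γ : ℝ → ℝ × E16 × (Fin 9 → ℝ)) (T : ℝ), 0 < T ∧
          IsGeodesicOP A L f h 1 γ ∧ (∀ t, γ (t + T) = γ t) ∧
          T ^ 16 ≤ 2640 * π ^ 16 * ∫ r in (0 : ℝ)..L, f r ^ 7 * h r ^ 8) ∧
      (∀ (γ : ℝ → ℝ × E16 × (Fin 9 → ℝ)) (v T : ℝ), 0 < v → 0 < T →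
        IsGeodesicOP A (π / 2) (fun r => Real.sin r * Real.cos r) Real.sin v γ →
        (∀ t, γ (t + T) = γ t) → π ≤ v * T)) ∧
    IsProfileCP (π / 2) (fun r => Real.sin r * Real.cos r) Real.sin ∧
    2640 * ∫ r in (0 : ℝ)..π / 2, (Real.sin r * Real.cos r) ^ 7 * Real.sin r ^ 8 = 1 := by
  refine ⟨Ex.exists_clifford, fun A hA => ⟨fun z hz => ?_, fun L f h hf => Main.short_geodesicOP hA hf,
    fun γ v T hv hT hγ hper => Low.length_OP hA hv hT hγ hper⟩, FP.profile_FS, ?_⟩
  · have h1 := Cl.sum_hopf hA z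
    rw [hz, one_pow] at h1
    exact h1
  · have e : ∀ r : ℝ, (Real.sin r * Real.cos r) ^ 7 * Real.sin r ^ 8 =
        (Real.sin r ^ 15 - 3 * Real.sin r ^ 17 + 3 * Real.sin r ^ 19 - Real.sin r ^ 21) *
          Real.cos r := by
      intro r
      have h3 : Real.cos r ^ 2 = 1 - Real.sin r ^ 2 := by
        have := Real.sin_sq_add_cos_sq r
        linarith
      have h4 : Real.cos r ^ 7 = (1 - Real.sin r ^ 2) ^ 3 * Real.cos r := by
        rw [← h3]
        ring
      rw [mul_pow, h4]
      ring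
    simp only [e]
    have hd : ∀ x ∈ uIcc (0 : ℝ) (π / 2), HasDerivAt
        (fun x => Real.sin x ^ 16 / 16 - 3 * Real.sin x ^ 18 / 18 + 3 * Real.sin x ^ 20 / 20 -
          Real.sin x ^ 22 / 22)
        ((Real.sin x ^ 15 - 3 * Real.sin x ^ 17 + 3 * Real.sin x ^ 19 - Real.sin x ^ 21) *
          Real.cos x) x := by
      intro x _
      have h1 := ((Real.hasDerivAt_sin x).fun_pow 16).div_const 16
      have h2 := (((Real.hasDerivAt_sin x).fun_pow 18).const_mul 3).div_const 18
      have h3 := (((Real.hasDerivAt_sin x).fun_pow 20).const_mul 3).div_const 20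
      have h4 := ((Real.hasDerivAt_sin x).fun_pow 22).div_const 22
      refine (((h1.sub h2).add h3).sub h4).congr_deriv ?_
      push_cast
      ring
    rw [intervalIntegral.integral_eq_sub_of_hasDerivAt hd
      (Continuous.intervalIntegrable (by fun_prop) _ _)]
    rw [Real.sin_pi_div_two, Real.sin_zero]
    norm_num

end Pool.Agent.Results.MP_3eff7f_gt.CayleyPlane
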