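import Pool.Agent.H804.ZR.Fin

/-!
# Equality in the sharp bounds for periodic geodesics: Zoll metrics

`Rot.IsProfile L f`: `dr² + f(r)² g_{S^{n-1}}`, `0 ≤ r ≤ L`, is a smooth rotationally symmetric metric on
`S^n`.  `IsProfileUS L f h`: `dr² + f(r)² g_V + h(r)² g_H` is a smooth metric on `S^N` with the symmetry of
a complex (`N = 2 n`), quaternionic (`N = 4 n`) or octonionic (`N = 16`) Hopf fibration.  If no periodic
geodesic of such a metric is shorter than a great circle of the round sphere of the same volume, radius `R`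
say, then the metric is rotationally symmetric and Zoll: every unit speed geodesic has period `2 π R`
(and every unit tangent vector is tangent to a geodesic).
-/

open Real Set MeasureTheory Quaternion

namespace Pool.Agent.Results.MP_3eff7f_gt.EqualityZoll

open Pool.Agent.H206R2
open H738CP H804OP H804US H804ZR

theorem result :
    -- rotationally symmetric metrics on `S^n`
    (∀ (n : ℕ) (L : ℝ) (f : ℝ → ℝ), 3 ≤ n → Rot.IsProfile L f →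
      (∀ (γ : ℝ → EuclideanSpace ℝ (Fin n) × ℝ) (T : ℝ), 0 < T → Rot.IsGeodesic L f 1 γ →
        (∀ t, γ (t + T) = γ t) →
        (2 * π) ^ n * (∫ r in (0 : ℝ)..L, f r ^ (n - 1)) ≤
          T ^ n * ∫ t in (0 : ℝ)..π, Real.sin t ^ (n - 1)) →
      ∃ R : ℝ, 0 < R ∧ R ^ n * (∫ t in (0 : ℝ)..π, Real.sin t ^ (n - 1)) =
        (∫ r in (0 : ℝ)..L, f r ^ (n - 1)) ∧ IsZoll n R L f) ∧
    (∀ (L : ℝ) (f h : ℝ → ℝ), IsProfileUS L f h →
      -- `U(n)`-invariant metrics on `S^{2n}`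
      (∀ n : ℕ, 2 ≤ n →
        (∀ (γ : ℝ → EuclideanSpace ℂ (Fin n) × ℝ) (T : ℝ), 0 < T →
          IsGeodesicUS L f h 1 γ → (∀ t, γ (t + T) = γ t) →
          (2 * π) ^ (2 * n) * (∫ r in (0 : ℝ)..L, f r * h r ^ (2 * n - 2)) ≤
            T ^ (2 * n) * ∫ t in (0 : ℝ)..π, Real.sin t ^ (2 * n - 1)) →
        (∀ r ∈ Icc 0 L, f r = h r) ∧
        ∃ R : ℝ, 0 < R ∧ R ^ (2 * n) * (∫ t in (0 : ℝ)..π, Real.sin t ^ (2 * n - 1)) =
          (∫ r in (0 : ℝ)..L, f r * h r ^ (2 * n - 2)) ∧ IsZoll (2 * n) R L f) ∧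
      -- `Sp(n)Sp(1)`-invariant metrics on `S^{4n}`
      (∀ n : ℕ, 2 ≤ n →
        (∀ (γ : ℝ → (Fin n → ℍ[ℝ]) × ℝ) (T : ℝ), 0 < T →
          IsGeodesicHS L f h 1 γ → (∀ t, γ (t + T) = γ t) →
          (2 * π) ^ (4 * n) * (∫ r in (0 : ℝ)..L, f r ^ 3 * h r ^ (4 * n - 4)) ≤
            T ^ (4 * n) * ∫ t in (0 : ℝ)..π, Real.sin t ^ (4 * n - 1)) →
        (∀ r ∈ Icc 0 L, f r = h r) ∧
        ∃ R : ℝ, 0 < R ∧ R ^ (4 * n) * (∫ t in (0 : ℝ)..π, Real.sin t ^ (4 * n - 1)) =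
          (∫ r in (0 : ℝ)..L, f r ^ 3 * h r ^ (4 * n - 4)) ∧ IsZoll (4 * n) R L f) ∧
      -- `Spin(9)`-invariant metrics on `S^16`
      (∀ A : Fin 9 → E16 →L[ℝ] E16, IsClifford A →
        (∀ (γ : ℝ → E16 × ℝ) (T : ℝ), 0 < T →
          IsGeodesicOS A L f h 1 γ → (∀ t, γ (t + T) = γ t) →
          (2 * π) ^ 16 * (∫ r in (0 : ℝ)..L, f r ^ 7 * h r ^ 8) ≤
            T ^ 16 * ∫ t in (0 : ℝ)..π, Real.sin t ^ 15) →
        (∀ r ∈ Icc 0 L, f r = h r) ∧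
        ∃ R : ℝ, 0 < R ∧ R ^ 16 * (∫ t in (0 : ℝ)..π, Real.sin t ^ 15) =
          (∫ r in (0 : ℝ)..L, f r ^ 7 * h r ^ 8) ∧ IsZoll 16 R L f)) := by
  refine ⟨fun n L f hn hf hno => H804ZR.Fin.rot hf (by omega) hno,
    fun L f h hf => ⟨fun n hn hno => H804ZR.Fin.zoll_US hf hn hno,
      fun n hn hno => H804ZR.Fin.zoll_HS hf hn hno,
      fun A hA hno => H804ZR.Fin.zoll_OS hA hf hno⟩⟩

end Pool.Agent.Results.MP_3eff7f_gt.EqualityZoll
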