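import Pool.Agent.H804.US.Fin
import Pool.Agent.H804.OP.Ex

/-!
# Sharp short periodic geodesics for spheres with Hopf symmetry

`IsProfileUS L f h`: `dr² + f(r)² g_V + h(r)² g_H`, `0 ≤ r ≤ L`, is a smooth metric on `S^N`, where `g_V`
and `g_H` are the restrictions of the round metric of `S^{N-1}` to the tangent spaces of the fibres of a
Hopf fibration and to their orthogonal complements: the complex one (`N = 2 n`), the quaternionic one
(`N = 4 n`) or the octonionic one (`N = 16`).  `IsGeodesicUS`, `IsGeodesicHS`, `IsGeodesicOS`: geodesics of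
speed `v` of these metrics.  There is a periodic geodesic of unit speed with period `T` such that
`T^N ∫_0^π sin^{N-1} ≤ (2 π)^N ∫_0^L f^a h^{N-1-a}` (`a = 1, 3, 7`), i.e. a periodic geodesic at most as
long as a great circle of the round sphere of the same volume; there is a strictly shorter one unless
`f = h`.  The constant is optimal: for the round sphere every periodic geodesic has length `≥ 2 π`.
-/

open Real Set MeasureTheory Quaternion

namespace Pool.Agent.Results.MP_3eff7f_gt.HopfSpheres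

open H738CP H804OP H804US

theorem result :
    (∀ (L : ℝ) (f h : ℝ → ℝ), IsProfileUS L f h →
      -- `U(n)`-invariant metrics on `S^{2n}`
      (∀ n : ℕ, 2 ≤ n →
        (∃ (γ : ℝ → EuclideanSpace ℂ (Fin n) × ℝ) (T : ℝ), 0 < T ∧
          IsGeodesicUS L f h 1 γ ∧ (∀ t, γ (t + T) = γ t) ∧
          T ^ (2 * n) * (∫ t in (0 : ℝ)..π, Real.sin t ^ (2 * n - 1)) ≤
            (2 * π) ^ (2 * n) * ∫ r in (0 : ℝ)..L, f r * h r ^ (2 * n - 2)) ∧
        ((∃ r ∈ Icc 0 L, f r ≠ h r) →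
          ∃ (γ : ℝ → EuclideanSpace ℂ (Fin n) × ℝ) (T : ℝ), 0 < T ∧
          IsGeodesicUS L f h 1 γ ∧ (∀ t, γ (t + T) = γ t) ∧
          T ^ (2 * n) * (∫ t in (0 : ℝ)..π, Real.sin t ^ (2 * n - 1)) <
            (2 * π) ^ (2 * n) * ∫ r in (0 : ℝ)..L, f r * h r ^ (2 * n - 2))) ∧
      -- `Sp(n)Sp(1)`-invariant metrics on `S^{4n}`
      (∀ n : ℕ, 2 ≤ n →
        (∃ (γ : ℝ → (Fin n → ℍ[ℝ]) × ℝ) (T : ℝ), 0 < T ∧
          IsGeodesicHS L f h 1 γ ∧ (∀ t, γ (t + T) = γ t) ∧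
          T ^ (4 * n) * (∫ t in (0 : ℝ)..π, Real.sin t ^ (4 * n - 1)) ≤
            (2 * π) ^ (4 * n) * ∫ r in (0 : ℝ)..L, f r ^ 3 * h r ^ (4 * n - 4)) ∧
        ((∃ r ∈ Icc 0 L, f r ≠ h r) →
          ∃ (γ : ℝ → (Fin n → ℍ[ℝ]) × ℝ) (T : ℝ), 0 < T ∧
          IsGeodesicHS L f h 1 γ ∧ (∀ t, γ (t + T) = γ t) ∧
          T ^ (4 * n) * (∫ t in (0 : ℝ)..π, Real.sin t ^ (4 * n - 1)) <
            (2 * π) ^ (4 * n) * ∫ r in (0 : ℝ)..L, f r ^ 3 * h r ^ (4 * n - 4))) ∧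
      -- `Spin(9)`-invariant metrics on `S^16`
      (∀ A : Fin 9 → E16 →L[ℝ] E16, IsClifford A →
        (∃ (γ : ℝ → E16 × ℝ) (T : ℝ), 0 < T ∧
          IsGeodesicOS A L f h 1 γ ∧ (∀ t, γ (t + T) = γ t) ∧
          T ^ 16 * (∫ t in (0 : ℝ)..π, Real.sin t ^ 15) ≤
            (2 * π) ^ 16 * ∫ r in (0 : ℝ)..L, f r ^ 7 * h r ^ 8) ∧
        ((∃ r ∈ Icc 0 L, f r ≠ h r) →
          ∃ (γ : ℝ → E16 × ℝ) (T : ℝ), 0 < T ∧
          IsGeodesicOS A L f h 1 γ ∧ (∀ t, γ (t + T) = γ t) ∧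
          T ^ 16 * (∫ t in (0 : ℝ)..π, Real.sin t ^ 15) <
            (2 * π) ^ 16 * ∫ r in (0 : ℝ)..L, f r ^ 7 * h r ^ 8))) ∧
    -- optimality: the round sphere
    (∃ A : Fin 9 → E16 →L[ℝ] E16, IsClifford A) ∧
    IsProfileUS π Real.sin Real.sin ∧
    (∀ (n : ℕ) (γ : ℝ → EuclideanSpace ℂ (Fin n) × ℝ) (v T : ℝ), 0 < v → 0 < T →
      IsGeodesicUS π Real.sin Real.sin v γ → (∀ t, γ (t + T) = γ t) → 2 * π ≤ v * T) ∧
    (∀ (n : ℕ) (γ : ℝ → (Fin n → ℍ[ℝ]) × ℝ) (v T : ℝ), 0 < v → 0 < T →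
      IsGeodesicHS π Real.sin Real.sin v γ → (∀ t, γ (t + T) = γ t) → 2 * π ≤ v * T) ∧
    (∀ (A : Fin 9 → E16 →L[ℝ] E16) (γ : ℝ → E16 × ℝ) (v T : ℝ), 0 < v → 0 < T →
      IsGeodesicOS A π Real.sin Real.sin v γ → (∀ t, γ (t + T) = γ t) → 2 * π ≤ v * T) := by
  refine ⟨fun L f h hf => ⟨fun n hn => ⟨Main.short_US hf hn, fun hne => ?_⟩,
      fun n hn => ⟨Main.short_HS hf hn, fun hne => ?_⟩,
      fun A hA => ⟨Main.short_OS hA hf, fun hne => ?_⟩⟩,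
    Ex.exists_clifford, Fin.profile_round,
    fun n γ v T hv hT hγ hper => H804US.Low.low_US hv hT hγ hper,
    fun n γ v T hv hT hγ hper => H804US.Low.low_HS hv hT hγ hper,
    fun A γ v T hv hT hγ hper => H804US.Low.low_OS hv hT hγ hper⟩
  · obtain ⟨r, hr, hne⟩ := hne
    by_contra hcon
    push Not at hcon
    exact hne (Fin.rigid_US hf hn hcon r hr)
  · obtain ⟨r, hr, hne⟩ := hne
    by_contra hcon
    push Not at hcon
    exact hne (Fin.rigid_HS hf hn hcon r hr)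
  · obtain ⟨r, hr, hne⟩ := hne
    by_contra hcon
    push Not at hcon
    exact hne (Fin.rigid_OS hA hf hcon r hr)

end Pool.Agent.Results.MP_3eff7f_gt.HopfSpheres
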