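import Pool.Agent.H804.OP.Rig6
import Pool.Agent.H804.OP.Ex

/-!
# The equality case of the sharp short geodesic inequality on `ℂP^n`, `ℍP^n` and `𝕆P²`

`IsProfileCP L f h`: `dr² + f(r)² g_V + h(r)² g_H`, `0 ≤ r ≤ L`, is a smooth metric on `ℂP^n`, `ℍP^n` or
`𝕆P²` invariant under the isotropy group of a point (`g_V`, `g_H`: the restrictions of the round metric of
the unit sphere to the tangent spaces of the fibres of the Hopf fibration and their complements).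
`IsGeodesicCP`, `IsGeodesicHP`, `IsGeodesicOP`: the geodesics of these metrics.  Every such metric has a
periodic geodesic of unit speed with period `T` such that `T^N ≤ c π^N ∫_0^L f^{a+1} h^{b+1}`, where
`N` is the dimension, the exponents are the dimensions of the fibre and of the base, and the right side
is `π^N` for the symmetric metric.  Here: no periodic geodesic is shorter than this bound exactly for
the symmetric metrics `f = R sin(r/R) cos(r/R)`, `h = R sin(r/R)`, `L = π R / 2` (`IsSymm R L f h`).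
-/

open Real Set MeasureTheory Quaternion

namespace Pool.Agent.Results.MP_3eff7f_gt.SymmetricRigidity

open H738CP H804OP H804OP.Rig

theorem result :
    (∀ n : ℕ, 2 ≤ n → ∀ (L : ℝ) (f h : ℝ → ℝ), IsProfileCP L f h →
      ((∀ (γ : ℝ → Submodule ℂ (ℂ × EuclideanSpace ℂ (Fin n))) (T : ℝ), 0 < T →
        IsGeodesicCP L f h 1 γ → (∀ t, γ (t + T) = γ t) →
        2 * n * π ^ (2 * n) * (∫ r in (0 : ℝ)..L, f r * h r ^ (2 * n - 2)) ≤ T ^ (2 * n)) ↔
      ∃ R : ℝ, 0 < R ∧ IsSymm R L f h)) ∧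
    (∀ n : ℕ, 2 ≤ n → ∀ (L : ℝ) (f h : ℝ → ℝ), IsProfileCP L f h →
      ((∀ (γ : ℝ → Set (ℍ[ℝ] × (Fin n → ℍ[ℝ]))) (T : ℝ), 0 < T →
        IsGeodesicHP L f h 1 γ → (∀ t, γ (t + T) = γ t) →
        4 * n * (2 * n + 1) * π ^ (4 * n) *
          (∫ r in (0 : ℝ)..L, f r ^ 3 * h r ^ (4 * n - 4)) ≤ T ^ (4 * n)) ↔
      ∃ R : ℝ, 0 < R ∧ IsSymm R L f h)) ∧
    (∀ A : Fin 9 → E16 →L[ℝ] E16, IsClifford A → ∀ (L : ℝ) (f h : ℝ → ℝ), IsProfileCP L f h →
      ((∀ (γ : ℝ → ℝ × E16 × (Fin 9 → ℝ)) (T : ℝ), 0 < T →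
        IsGeodesicOP A L f h 1 γ → (∀ t, γ (t + T) = γ t) →
        2640 * π ^ 16 * (∫ r in (0 : ℝ)..L, f r ^ 7 * h r ^ 8) ≤ T ^ 16) ↔
      ∃ R : ℝ, 0 < R ∧ IsSymm R L f h)) :=
  ⟨fun _ hn _ _ _ hf => ⟨fun h => rigid_CP hn hf h,
      fun ⟨_, hR, hs⟩ γ T hT hγ hper => conv_CP hn hf hR hs γ T hT hγ hper⟩,
    fun _ hn _ _ _ hf => ⟨fun h => rigid_HP hn hf h,
      fun ⟨_, hR, hs⟩ γ T hT hγ hper => conv_HP hn hf hR hs γ T hT hγ hper⟩,
    fun _ hA _ _ _ hf => ⟨fun h => rigid_OP hA hf h,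
      fun ⟨_, hR, hs⟩ γ T hT hγ hper => conv_OP hA hf hR hs γ T hT hγ hper⟩⟩

end Pool.Agent.Results.MP_3eff7f_gt.SymmetricRigidity
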